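import Mathlib

namespace Run7.h588.BR

/-- `s_p(F, G) = emb(F, G) / (n (n - 1) ... (n - k + 1) p ^ e(F))` for a graph `F` on `k` vertices and
a graph `G` on `n` vertices; `emb(F, G)` is the number of injective homomorphisms. -/
noncomputable def dens (p : ℝ) {k n : ℕ} (F : SimpleGraph (Fin k)) (G : SimpleGraph (Fin n)) : ℝ :=
  (G.labelledCopyCount F : ℝ) / ((n.descFactorial k : ℝ) * p ^ F.edgeSet.ncard)

end Run7.h588.BR
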