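import Pool.Agent.Run7.h588.BR.Moment

/-! Graphs with prescribed densities of all small graphs. -/

namespace Run7.h588.BR
open Finset

variable {K : Type*} [Fintype K] [Nonempty K]

open Classical in
/-- the edges of `F` as increasing pairs -/
noncomputable def pairs {k : ℕ} (F : SimpleGraph (Fin k)) : Finset (Fin k × Fin k) :=
  univ.filter (fun e => e.1 < e.2 ∧ F.Adj e.1 e.2)

lemma pairs_inj {k : ℕ} (F : SimpleGraph (Fin k)) :
    ∀ e ∈ pairs F, ∀ e' ∈ pairs F, s(e.1, e.2) = s(e'.1, e'.2) → e = e' := by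
  classical
  rintro ⟨a, b⟩ he ⟨c, d⟩ he' h
  simp only [pairs, mem_filter, mem_univ, true_and] at he he'
  simp only [Sym2.eq_iff] at h
  rcases h with ⟨rfl, rfl⟩ | ⟨rfl, rfl⟩
  · rfl
  · exact absurd (he.1.trans he'.1) (lt_irrefl _)

lemma card_pairs {k : ℕ} (F : SimpleGraph (Fin k)) : (pairs F).card = F.edgeSet.ncard := by
  classical
  rw [← Set.ncard_coe_finset]
  apply Set.ncard_congr (fun e _ => s(e.1, e.2))
  · rintro ⟨a, b⟩ he
    simp only [pairs, Finset.coe_filter, mem_univ, true_and, Set.mem_ofPred_eq] at he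
    exact he.2
  · intro e e' he he' h
    exact pairs_inj F e he e' he' h
  · intro z hz
    induction z using Sym2.ind with
    | _ a b =>
      have hab : F.Adj a b := hz
      rcases lt_trichotomy a b with h | h | h
      · exact ⟨(a, b), by simp [pairs, h, hab], rfl⟩
      · exact absurd h hab.ne
      · exact ⟨(b, a), by simp [pairs, h, hab.symm], Sym2.eq_swap⟩

/-- the threshold graph of types `τ` and marks `ω` -/
def gr {n L : ℕ} (T : K → K → ℕ) (hs : ∀ x y, T x y = T y x) (τ : Fin n → K)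
    (ω : Sym2 (Fin n) → Fin L) : SimpleGraph (Fin n) where
  Adj i j := i ≠ j ∧ (ω s(i, j) : ℕ) < T (τ i) (τ j)
  symm := ⟨fun i j h => ⟨h.1.symm, by rw [Sym2.eq_swap, hs]; exact h.2⟩⟩
  loopless := ⟨fun i h => h.1 rfl⟩

lemma lcc {k n : ℕ} (F : SimpleGraph (Fin k)) (G : SimpleGraph (Fin n)) :
    G.labelledCopyCount F = Nat.card (SimpleGraph.Copy F G) := by
  unfold SimpleGraph.labelledCopyCount
  exact (@Nat.card_eq_fintype_card _ (_)).symm

omit [Fintype K] [Nonempty K] in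
lemma count_gr {n L k : ℕ} (T : K → K → ℕ) (hs : ∀ x y, T x y = T y x) (τ : Fin n → K)
    (ω : Sym2 (Fin n) → Fin L) (F : SimpleGraph (Fin k)) :
    (((gr T hs τ ω).labelledCopyCount F : ℕ) : ℝ) = X (pairs F) T τ ω := by
  classical
  unfold X
  rw [← Finset.sum_filter]
  simp only [sum_const, nsmul_eq_mul, mul_one]
  congr 1
  rw [lcc, ← Nat.card_eq_finsetCard]
  have key : ∀ f : Fin k → Fin n, (Function.Injective f ∧ ev (pairs F) T f τ ω) ↔
      (Function.Injective f ∧ ∀ a b, F.Adj a b → (gr T hs τ ω).Adj (f a) (f b)) := by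
    intro f
    constructor
    · rintro ⟨h1, h2⟩
      refine ⟨h1, ?_⟩
      intro a b hab
      rcases lt_trichotomy a b with h | h | h
      · exact ⟨fun h' => hab.ne (h1 h'), h2 (a, b) (by simp [pairs, h, hab])⟩
      · exact absurd h hab.ne
      · have := h2 (b, a) (by simp [pairs, h, hab.symm])
        refine ⟨fun h' => hab.ne (h1 h'), ?_⟩
        rw [Sym2.eq_swap, hs]; exact this
    · rintro ⟨h1, h2⟩
      refine ⟨h1, ?_⟩
      rintro ⟨a, b⟩ he
      simp only [pairs, mem_filter, mem_univ, true_and] at he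
      exact (h2 a b he.2).2
  refine Nat.card_congr ⟨fun c => ⟨c.toHom, ?_⟩, fun f => ⟨⟨f.1, ?_⟩, ?_⟩, ?_, ?_⟩
  · simp only [mem_filter, Inj, mem_univ, true_and]
    exact (key _).2 ⟨c.injective', fun a b h => c.toHom.map_rel h⟩
  · intro a b hab
    have := f.2
    simp only [mem_filter, Inj, mem_univ, true_and] at this
    exact ((key _).1 this).2 a b hab
  · have := f.2
    simp only [mem_filter, Inj, mem_univ, true_and] at this
    exact this.1
  · intro c; rfl
  · intro f; rfl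

open Filter in
/-- for large `n` there is a graph with all densities of graphs on at most `j` vertices close to
those of the weighted graph -/
lemma exists_graph (T : K → K → ℕ) (hs : ∀ x y, T x y = T y x) (L : ℕ) (hL : 0 < L)
    (hT : ∀ x y, T x y ≤ L) (j : ℕ) (ε : ℝ) (hε : 0 < ε) :
    ∀ᶠ n : ℕ in atTop, ∃ G : SimpleGraph (Fin n), ∀ k ≤ j, ∀ F : SimpleGraph (Fin k),
      |(G.labelledCopyCount F : ℝ) / (n.descFactorial k : ℝ) - tden (Fin k) (pairs F) T L| ≤ ε := by
  classical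
  let I := Σ k : Fin (j + 1), SimpleGraph (Fin k)
  set C : ℝ := ∑ i : I, ((i.1 : ℕ) : ℝ) ^ 2 with hC
  have h1 : ∀ᶠ n : ℕ in atTop, C / ε ^ 2 < n := tendsto_natCast_atTop_atTop.eventually_gt_atTop _
  filter_upwards [h1, eventually_ge_atTop (j + 1)] with n hn hnj
  by_contra hcon
  push Not at hcon
  set N : ℝ := (Fintype.card K : ℝ) ^ n * (L : ℝ) ^ (Fintype.card (Sym2 (Fin n))) with hN
  have hNpos : 0 < N := by
    have : 0 < Fintype.card K := Fintype.card_pos
    positivity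
  have hn0 : (0 : ℝ) < n := by
    have : 0 < n := by omega
    exact_mod_cast this
  have h2 : ∀ i : I, (∑ τ : Fin n → K, ∑ ω : Sym2 (Fin n) → Fin L,
        (X (pairs i.2) T τ ω / (n.descFactorial (i.1 : ℕ) : ℝ) - tden (Fin i.1) (pairs i.2) T L) ^ 2)
      ≤ N * (((i.1 : ℕ) : ℝ) ^ 2 / n) := by
    intro i
    exact second hL (by have := i.1.2; omega) (pairs i.2) (pairs_inj i.2) T hT
  have h3 : ∀ τ : Fin n → K, ∀ ω : Sym2 (Fin n) → Fin L, ε ^ 2 <
      ∑ i : I, (X (pairs i.2) T τ ω / (n.descFactorial (i.1 : ℕ) : ℝ)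
        - tden (Fin i.1) (pairs i.2) T L) ^ 2 := by
    intro τ ω
    obtain ⟨k, hk, F, hF⟩ := hcon (gr T hs τ ω)
    rw [count_gr] at hF
    have h4 := Finset.single_le_sum (f := fun i : I =>
      (X (pairs i.2) T τ ω / (n.descFactorial (i.1 : ℕ) : ℝ)
        - tden (Fin i.1) (pairs i.2) T L) ^ 2) (fun i _ => sq_nonneg _)
      (Finset.mem_univ (⟨⟨k, by omega⟩, F⟩ : I))
    refine lt_of_lt_of_le ?_ h4
    simp only
    rw [← sq_abs (X (pairs F) T τ ω / (n.descFactorial k : ℝ) - tden (Fin k) (pairs F) T L)]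
    exact pow_lt_pow_left₀ hF hε.le (by norm_num)
  have h5 : N * ε ^ 2 ≤ ∑ τ : Fin n → K, ∑ ω : Sym2 (Fin n) → Fin L, 
      ∑ i : I, (X (pairs i.2) T τ ω / (n.descFactorial (i.1 : ℕ) : ℝ)
        - tden (Fin i.1) (pairs i.2) T L) ^ 2 := by
    calc N * ε ^ 2 = ∑ τ : Fin n → K, ∑ ω : Sym2 (Fin n) → Fin L, ε ^ 2 := by
          simp [hN]; ring
      _ ≤ _ := by
          apply Finset.sum_le_sum; intro τ _
          apply Finset.sum_le_sum; intro ω _
          exact (h3 τ ω).le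
  have h6 : (∑ τ : Fin n → K, ∑ ω : Sym2 (Fin n) → Fin L, 
      ∑ i : I, (X (pairs i.2) T τ ω / (n.descFactorial (i.1 : ℕ) : ℝ)
        - tden (Fin i.1) (pairs i.2) T L) ^ 2) ≤ N * (C / n) := by
    simp_rw [Finset.sum_comm (s := (univ : Finset (Sym2 (Fin n) → Fin L))) (t := (univ : Finset I))]
    rw [Finset.sum_comm]
    refine (Finset.sum_le_sum (fun i _ => h2 i)).trans ?_
    rw [← Finset.mul_sum, ← Finset.sum_div]
  have h7 : N * ε ^ 2 ≤ N * (C / n) := h5.trans h6
  have h8 : ε ^ 2 ≤ C / n := le_of_mul_le_mul_left h7 hNpos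
  rw [le_div_iff₀ hn0] at h8
  rw [div_lt_iff₀ (by positivity)] at hn
  linarith

end Run7.h588.BR
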