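import Pool.Agent.Run7.h588.BR.Weights
import Pool.Agent.Run7.h588.BR.Defs

/-! Assembly. -/

namespace Run7.h588.BR
open Finset Filter Topology

/-- edge density -/
noncomputable def ed {n : ℕ} (G : SimpleGraph (Fin n)) : ℝ := (G.edgeSet.ncard : ℝ) / (n.choose 2 : ℝ)

lemma lcc_K2 {n : ℕ} (G : SimpleGraph (Fin n)) :
    G.labelledCopyCount (⊤ : SimpleGraph (Fin 2)) = 2 * G.edgeSet.ncard := by
  classical
  rw [lcc]
  have h1 : Nat.card (SimpleGraph.Copy (⊤ : SimpleGraph (Fin 2)) G) = Nat.card G.Dart := by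
    refine Nat.card_congr ⟨fun c => ⟨(c.toHom 0, c.toHom 1), c.toHom.map_rel (by simp)⟩,
      fun d => ⟨⟨fun i => if i = 0 then d.fst else d.snd, ?_⟩, ?_⟩, ?_, ?_⟩
    · intro a b hab
      fin_cases a <;> fin_cases b <;> simp at hab ⊢
      · exact d.adj.symm
    · intro a b hab
      have hne := d.adj.ne
      fin_cases a <;> fin_cases b <;> simp at hab ⊢
    · intro c
      apply SimpleGraph.Copy.ext
      intro i
      fin_cases i <;> rfl
    · intro d
      rfl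
  rw [h1, Nat.card_eq_fintype_card, SimpleGraph.dart_card_eq_twice_card_edges]
  congr 1
  rw [Set.ncard_eq_toFinset_card']
  rfl

lemma ed_eq {n : ℕ} (G : SimpleGraph (Fin n)) :
    (G.labelledCopyCount (⊤ : SimpleGraph (Fin 2)) : ℝ) / (n.descFactorial 2 : ℝ) = ed G := by
  unfold ed
  rw [lcc_K2]
  have h1 : n.descFactorial 2 = 2 * n.choose 2 := by
    rw [Nat.descFactorial_eq_factorial_mul_choose]; rfl
  rw [h1]
  push_cast
  rw [mul_div_mul_left _ _ (by norm_num)]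

lemma ed_le_one {n : ℕ} (G : SimpleGraph (Fin n)) : ed G ≤ 1 := by
  classical
  unfold ed
  apply div_le_one_of_le₀ _ (by positivity)
  have := SimpleGraph.card_edgeFinset_le_card_choose_two (G := G)
  rw [Fintype.card_fin] at this
  rw [Set.ncard_eq_toFinset_card']
  exact_mod_cast this

lemma ncard_top (n : ℕ) : (⊤ : SimpleGraph (Fin n)).edgeSet.ncard = n.choose 2 := by
  classical
  rw [Set.ncard_eq_toFinset_card']
  have := SimpleGraph.card_edgeFinset_top_eq_card_choose_two (V := Fin n)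
  rw [Fintype.card_fin] at this
  exact this

/-- stage `j` -/
lemma stage (D M : ℕ) (hD : 0 < D) (z : ℝ) (c : ℤˣ → ℕ)
    (hc : ∀ u : ℤˣ, (c u : ℝ) = D * (1 + z * ((u : ℤ) : ℝ))) (hc2 : ∀ u, c u ≤ 2 * D)
    (j : ℕ) (η : ℝ) (hη : 0 < η) :
    ∀ᶠ n : ℕ in atTop, ∃ G : SimpleGraph (Fin n), 0 < ed G ∧
      Real.log (1 / ed G) / Real.log n ≤ η ∧
      ∀ k ≤ j, ∀ F : SimpleGraph (Fin k), |dens (ed G) F G - (qq (pairs F) z) ^ M| ≤ η := by
  classical
  let I := Σ k : Fin (j + 1), SimpleGraph (Fin k)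
  set a : ℝ := ((2 : ℝ)⁻¹) ^ M with ha
  have ha0 : 0 < a := by positivity
  have hcont : ∀ i : I, ∀ᶠ ε : ℝ in 𝓝[>] 0, ∀ x y : ℝ, |x - a ^ (pairs i.2).card * (qq (pairs i.2) z) ^ M| ≤ ε →
      |y - a| ≤ ε → |x / y ^ (pairs i.2).card - (qq (pairs i.2) z) ^ M| ≤ η := by
    intro i
    set e := (pairs i.2).card with he
    set q := (qq (pairs i.2) z) ^ M with hq
    have hct : ContinuousAt (fun v : ℝ × ℝ => v.1 / v.2 ^ e) (a ^ e * q, a) := by
      exact ContinuousAt.div continuousAt_fst (continuousAt_snd.pow e) (pow_ne_zero e ha0.ne')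
    rw [Metric.continuousAt_iff] at hct
    obtain ⟨δ, hδ, hct⟩ := hct η hη
    have h1 : Set.Ioo (0 : ℝ) δ ∈ 𝓝[>] (0 : ℝ) := Ioo_mem_nhdsGT hδ
    filter_upwards [h1] with ε hε x y hx hy
    have h2 : dist (x, y) (a ^ e * q, a) < δ := by
      rw [Prod.dist_eq, Real.dist_eq, Real.dist_eq]
      exact max_lt (lt_of_le_of_lt hx hε.2) (lt_of_le_of_lt hy hε.2)
    have h3 := hct h2
    rw [Real.dist_eq] at h3
    have h4 : a ^ e * q / a ^ e = q := by field_simp
    simp only [h4] at h3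
    exact h3.le
  have hall := Filter.eventually_all.2 hcont
  have hlt : ∀ᶠ ε : ℝ in 𝓝[>] 0, 0 < ε ∧ ε ≤ a / 2 := by
    have : Set.Ioo (0 : ℝ) (a / 2) ∈ 𝓝[>] (0 : ℝ) := Ioo_mem_nhdsGT (by positivity)
    filter_upwards [this] with ε hε
    exact ⟨hε.1, hε.2.le⟩
  obtain ⟨ε, hε1, hε2, hε3⟩ := (hall.and hlt).exists
  have hG := exists_graph (Tw M c) (Tw_symm M c) ((2 * D) ^ M) (by positivity) (Tw_le M D c hc2)
    (j + 2) ε hε2
  have hlog : ∀ᶠ n : ℕ in atTop, Real.log (2 / a) / Real.log n ≤ η := by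
    have h1 : Tendsto (fun n : ℕ => Real.log (2 / a) / Real.log n) atTop (𝓝 0) :=
      Tendsto.const_div_atTop (Real.tendsto_log_atTop.comp tendsto_natCast_atTop_atTop) _
    exact h1.eventually_le_const hη
  filter_upwards [hG, hlog] with n hn hlogn
  obtain ⟨G, hG⟩ := hn
  have hK2 := hG 2 (by omega) ⊤
  rw [ed_eq, tden_Tw _ M D hD c z hc, qq_K2, mul_one] at hK2
  have hcard2 : (pairs (⊤ : SimpleGraph (Fin 2))).card = 1 := by
    rw [pairs_K2]; rfl
  rw [hcard2, pow_one] at hK2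
  have hed : a / 2 ≤ ed G := by
    have := abs_le.1 hK2
    rw [← ha] at this
    linarith [this.1]
  have hedpos : 0 < ed G := by linarith [half_pos ha0]
  refine ⟨G, hedpos, ?_, ?_⟩
  · refine le_trans ?_ hlogn
    apply div_le_div_of_nonneg_right _ (Real.log_natCast_nonneg n)
    apply Real.log_le_log (by positivity)
    rw [div_le_div_iff₀ hedpos ha0]
    linarith
  · intro k hk F
    have h5 := hε1 ⟨⟨k, by omega⟩, F⟩ ((G.labelledCopyCount F : ℝ) / (n.descFactorial k : ℝ)) (ed G)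
    simp only at h5
    have h6 := hG k (by omega) F
    rw [tden_Tw _ M D hD c z hc] at h6
    have h7 : (((2 : ℝ) ^ (pairs F).card)⁻¹ * qq (pairs F) z) ^ M
        = a ^ (pairs F).card * (qq (pairs F) z) ^ M := by
      rw [mul_pow, ha, ← inv_pow, ← pow_mul, ← pow_mul, mul_comm]
      ring_nf
    rw [h7] at h6
    have h8 := h5 h6 hK2
    unfold dens
    rw [← card_pairs, ← div_div]
    exact h8

lemma diag (Q : ℕ → ℕ → Prop) (h : ∀ j, ∀ᶠ n in atTop, Q j n) :
    ∃ φ : ℕ → ℕ, Tendsto φ atTop atTop ∧ ∀ᶠ n in atTop, Q (φ n) n := by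
  classical
  have h' : ∀ j, ∃ N, ∀ n ≥ N, Q j n := fun j => eventually_atTop.1 (h j)
  choose N hN using h'
  refine ⟨fun n => Nat.findGreatest (fun j => N j ≤ n) n, ?_, ?_⟩
  · rw [tendsto_atTop]
    intro b
    filter_upwards [eventually_ge_atTop (max (N b) b)] with n hn
    exact Nat.le_findGreatest ((le_max_right _ _).trans hn) ((le_max_left _ _).trans hn)
  · filter_upwards [eventually_ge_atTop (N 0)] with n hn
    apply hN
    exact Nat.findGreatest_spec (P := fun j => N j ≤ n) (Nat.zero_le n) hn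

lemma main (θ : ℝ) (D M : ℕ → ℕ) (z : ℕ → ℝ) (hD : ∀ j, 0 < D j)
    (hc : ∀ j, ∃ c : ℤˣ → ℕ, (∀ u : ℤˣ, (c u : ℝ) = D j * (1 + z j * ((u : ℤ) : ℝ))) ∧
      ∀ u, c u ≤ 2 * D j)
    (h3 : Tendsto (fun j => (1 + z j ^ 3) ^ (M j)) atTop (𝓝 θ))
    (h4 : Tendsto (fun j => (1 + z j ^ 4) ^ (M j)) atTop (𝓝 1))
    (hb : ∀ (k : ℕ) (F : SimpleGraph (Fin k)), ∃ C : ℝ, ∀ j, (qq (pairs F) (z j)) ^ (M j) ≤ C) :
    ∃ (p : ℕ → ℝ) (G : ∀ n : ℕ, SimpleGraph (Fin n)),
      (∀ n, 0 < p n ∧ p n ≤ 1) ∧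
      Tendsto (fun n : ℕ => Real.log (1 / p n) / Real.log n) atTop (𝓝 0) ∧
      (∀ n, ((G n).edgeSet.ncard : ℝ) = p n * (n.choose 2 : ℝ)) ∧
      Tendsto (fun n => dens (p n) (SimpleGraph.cycleGraph 4) (G n)) atTop (𝓝 1) ∧
      (∀ (k : ℕ) (F : SimpleGraph (Fin k)), ∃ C : ℝ, ∀ n, dens (p n) F (G n) ≤ C) ∧
      Tendsto (fun n => dens (p n) (⊤ : SimpleGraph (Fin 3)) (G n)) atTop (𝓝 θ) := by
  classical
  set Q : ℕ → ℕ → Prop := fun j n => ∃ G : SimpleGraph (Fin n), 0 < ed G ∧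
      Real.log (1 / ed G) / Real.log n ≤ 1 / ((j : ℝ) + 1) ∧
      ∀ k ≤ j, ∀ F : SimpleGraph (Fin k),
        |dens (ed G) F G - (qq (pairs F) (z j)) ^ (M j)| ≤ 1 / ((j : ℝ) + 1) with hQ
  have hQ1 : ∀ j, ∀ᶠ n in atTop, Q j n := by
    intro j
    obtain ⟨c, hc1, hc2⟩ := hc j
    exact stage (D j) (M j) (hD j) (z j) c hc1 hc2 j (1 / ((j : ℝ) + 1)) (by positivity)
  obtain ⟨φ, hφ, hφQ⟩ := diag Q hQ1
  have hex : ∀ n, ∃ G : SimpleGraph (Fin n), ∃ p : ℝ, (0 < p ∧ p ≤ 1) ∧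
      ((G.edgeSet.ncard : ℝ) = p * (n.choose 2 : ℝ)) ∧
      (Q (φ n) n → Real.log (1 / p) / Real.log n ≤ 1 / ((φ n : ℝ) + 1) ∧
      ∀ k ≤ φ n, ∀ F : SimpleGraph (Fin k),
        |dens p F G - (qq (pairs F) (z (φ n))) ^ (M (φ n))| ≤ 1 / ((φ n : ℝ) + 1)) := by
    intro n
    by_cases h : Q (φ n) n
    · obtain ⟨G, hG1, hG2, hG3⟩ := h
      refine ⟨G, ed G, ⟨hG1, ed_le_one G⟩, ?_, fun _ => ⟨hG2, hG3⟩⟩
      unfold ed at hG1 ⊢
      have : ((n.choose 2 : ℕ) : ℝ) ≠ 0 := by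
        intro h0
        rw [h0] at hG1
        simp at hG1
      field_simp
    · refine ⟨⊤, 1, ⟨by norm_num, le_refl _⟩, ?_, fun h' => absurd h' h⟩
      rw [ncard_top, one_mul]
  choose G p hp1 hp2 hp3 using hex
  have hφ' : Tendsto (fun n => 1 / ((φ n : ℝ) + 1)) atTop (𝓝 0) :=
    tendsto_one_div_add_atTop_nhds_zero_nat.comp hφ
  have hkey : ∀ (k : ℕ) (F : SimpleGraph (Fin k)), ∀ᶠ n in atTop,
      |dens (p n) F (G n) - (qq (pairs F) (z (φ n))) ^ (M (φ n))| ≤ 1 / ((φ n : ℝ) + 1) := by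
    intro k F
    filter_upwards [hφQ, hφ.eventually_ge_atTop k] with n h1 h2
    exact (hp3 n h1).2 k h2 F
  have hlim : ∀ (k : ℕ) (F : SimpleGraph (Fin k)) (l : ℝ),
      Tendsto (fun j => (qq (pairs F) (z j)) ^ (M j)) atTop (𝓝 l) →
      Tendsto (fun n => dens (p n) F (G n)) atTop (𝓝 l) := by
    intro k F l hl
    have h1 : Tendsto (fun n => dens (p n) F (G n) - (qq (pairs F) (z (φ n))) ^ (M (φ n)))
        atTop (𝓝 0) := squeeze_zero_norm' (by
          filter_upwards [hkey k F] with n hn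
          simpa using hn) hφ'
    have h2 := h1.add (hl.comp hφ)
    simpa using h2
  refine ⟨p, G, hp1, ?_, hp2, ?_, ?_, ?_⟩
  · refine tendsto_of_tendsto_of_tendsto_of_le_of_le' tendsto_const_nhds hφ' ?_ ?_
    · filter_upwards with n
      apply div_nonneg
      · apply Real.log_nonneg
        rw [le_div_iff₀ (hp1 n).1]
        linarith [(hp1 n).2]
      · exact Real.log_natCast_nonneg n
    · filter_upwards [hφQ] with n hn
      exact (hp3 n hn).1
  · apply hlim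
    simp_rw [qq_C4]
    exact h4
  · intro k F
    obtain ⟨C, hC⟩ := hb k F
    obtain ⟨N, hN⟩ := eventually_atTop.1 (hkey k F)
    refine ⟨C + 1 + ∑ m ∈ Finset.range N, |dens (p m) F (G m)|, ?_⟩
    intro n
    have hsum0 : 0 ≤ ∑ m ∈ Finset.range N, |dens (p m) F (G m)| :=
      Finset.sum_nonneg (fun _ _ => abs_nonneg _)
    by_cases h : N ≤ n
    · have h1 := (abs_le.1 (hN n h)).2
      have h2 := hC (φ n)
      have h3 : 1 / ((φ n : ℝ) + 1) ≤ 1 := by
        rw [div_le_one (by positivity)]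
        linarith [(Nat.cast_nonneg (φ n) : (0 : ℝ) ≤ φ n)]
      linarith
    · have h1 : |dens (p n) F (G n)| ≤ ∑ m ∈ Finset.range N, |dens (p m) F (G m)| :=
        Finset.single_le_sum (f := fun m => |dens (p m) F (G m)|) (fun _ _ => abs_nonneg _)
          (Finset.mem_range.2 (by omega))
      have h2 := le_abs_self (dens (p n) F (G n))
      have h3 : 0 ≤ C := by
        refine le_trans ?_ (hC 0)
        apply pow_nonneg
        apply qq_nonneg
        obtain ⟨c, hc1, hc2⟩ := hc 0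
        have e1 := hc1 1
        have e2 := hc1 (-1)
        have hD0 : (0 : ℝ) < D 0 := by exact_mod_cast hD 0
        simp only [Units.val_one, Int.cast_one, mul_one] at e1
        simp only [Units.val_neg, Units.val_one, Int.cast_neg, Int.cast_one, mul_neg, mul_one] at e2
        have f1 : (0 : ℝ) ≤ c 1 := by positivity
        have f2 : (0 : ℝ) ≤ c (-1) := by positivity
        rw [e1] at f1
        rw [e2] at f2
        have g1 := nonneg_of_mul_nonneg_right f1 hD0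
        have g2 := nonneg_of_mul_nonneg_right f2 hD0
        rw [abs_le]
        constructor <;> linarith
      linarith
  · apply hlim
    simp_rw [qq_K3]
    exact h3

end Run7.h588.BR
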