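import Pool.Agent.Run7.h588.BR.Prob

/-! First and second moments of the number of copies. -/

namespace Run7.h588.BR
open Finset

variable {K : Type*} [Fintype K] [Nonempty K]

/-- all edges in `P` are present along `h` -/
def ev {V : Type*} {n L : ℕ} (P : Finset (V × V)) (T : K → K → ℕ) (h : V → Fin n)
    (τ : Fin n → K) (ω : Sym2 (Fin n) → Fin L) : Prop :=
  ∀ e ∈ P, (ω s(h e.1, h e.2) : ℕ) < T (τ (h e.1)) (τ (h e.2))

/-- density of the pattern `P` in the weighted graph `T / L` -/
noncomputable def tden (V : Type*) [Fintype V] [DecidableEq V] (P : Finset (V × V)) (T : K → K → ℕ) (L : ℕ) : ℝ :=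
  ((Fintype.card K : ℝ) ^ (Fintype.card V))⁻¹ *
    ∑ x : V → K, ∏ e ∈ P, ((T (x e.1) (x e.2) : ℝ) / L)

open Classical in
lemma prob_all {V : Type*} [Fintype V] [DecidableEq V] {n L : ℕ} (hL : 0 < L)
    (P : Finset (V × V)) (hP : ∀ e ∈ P, ∀ e' ∈ P, s(e.1, e.2) = s(e'.1, e'.2) → e = e')
    (T : K → K → ℕ) (hT : ∀ x y, T x y ≤ L)
    (h : V → Fin n) (hinj : Function.Injective h) :
    (∑ τ : Fin n → K, ∑ ω : Sym2 (Fin n) → Fin L, (if ev P T h τ ω then (1 : ℝ) else 0))
      = (Fintype.card K : ℝ) ^ n * (L : ℝ) ^ (Fintype.card (Sym2 (Fin n))) * tden V P T L := by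
  have h1 : ∀ τ : Fin n → K, (∑ ω : Sym2 (Fin n) → Fin L, (if ev P T h τ ω then (1 : ℝ) else 0))
      = (L : ℝ) ^ (Fintype.card (Sym2 (Fin n))) *
        ∏ e ∈ P, ((T (τ (h e.1)) (τ (h e.2)) : ℝ) / L) := by
    intro τ
    have := card_thresh (Z := Sym2 (Fin n)) P (fun e => s(h e.1, h e.2)) (by
      intro e he e' he' hee
      apply hP e he e' he'
      have : Sym2.map h s(e.1, e.2) = Sym2.map h s(e'.1, e'.2) := by
        simpa [Sym2.map_mk] using hee
      exact Sym2.map.injective hinj this) L hL (fun e => T (τ (h e.1)) (τ (h e.2)))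
      (fun e _ => hT _ _)
    rw [← this]
    apply Finset.sum_congr rfl
    intro ω _
    unfold ev
    congr 1
  simp_rw [h1]
  rw [← Finset.mul_sum]
  have h2 := sum_comp_inj (K := K) h hinj (fun x => ∏ e ∈ P, ((T (x e.1) (x e.2) : ℝ) / L))
  rw [h2]
  unfold tden
  simp only [Fintype.card_fin]
  ring

/-- the doubled pattern -/
def dbl {V : Type*} [DecidableEq V] (P : Finset (V × V)) : Finset ((V ⊕ V) × (V ⊕ V)) :=
  P.image (fun e => (Sum.inl e.1, Sum.inl e.2)) ∪ P.image (fun e => (Sum.inr e.1, Sum.inr e.2))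

lemma tden_dbl {V : Type*} [Fintype V] [DecidableEq V] (P : Finset (V × V)) (T : K → K → ℕ)
    (L : ℕ) : tden (V ⊕ V) (dbl P) T L = (tden V P T L) ^ 2 := by
  classical
  unfold tden
  have h1 : ∀ x : V ⊕ V → K, ∏ e ∈ dbl P, ((T (x e.1) (x e.2) : ℝ) / L)
      = (∏ e ∈ P, ((T (x (Sum.inl e.1)) (x (Sum.inl e.2)) : ℝ) / L)) *
        (∏ e ∈ P, ((T (x (Sum.inr e.1)) (x (Sum.inr e.2)) : ℝ) / L)) := by
    intro x
    unfold dbl
    rw [Finset.prod_union, Finset.prod_image, Finset.prod_image]
    · rintro ⟨a, b⟩ _ ⟨c, d⟩ _ h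
      simpa using h
    · rintro ⟨a, b⟩ _ ⟨c, d⟩ _ h
      simpa using h
    · rw [Finset.disjoint_left]
      intro e he he'
      simp only [Finset.mem_image] at he he'
      obtain ⟨a, _, rfl⟩ := he
      obtain ⟨b, _, hb⟩ := he'
      simp at hb
  simp_rw [h1]
  rw [← Equiv.sum_comp (Equiv.sumArrowEquivProdArrow V V K).symm, Fintype.sum_prod_type]
  simp only [Equiv.sumArrowEquivProdArrow, Equiv.coe_fn_symm_mk, Sum.elim_inl, Sum.elim_inr]
  simp_rw [← Finset.mul_sum]
  rw [← Finset.sum_mul, Fintype.card_sum, pow_add, mul_inv]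
  ring

lemma tden_nonneg {V : Type*} [Fintype V] [DecidableEq V] (P : Finset (V × V)) (T : K → K → ℕ) (L : ℕ) :
    0 ≤ tden V P T L := by
  unfold tden
  apply mul_nonneg (by positivity)
  apply Finset.sum_nonneg
  intro x _
  apply Finset.prod_nonneg
  intro e _
  positivity

open Classical in
/-- injections -/
noncomputable def Inj (k n : ℕ) : Finset (Fin k → Fin n) := univ.filter Function.Injective

lemma card_Inj (k n : ℕ) : (Inj k n).card = n.descFactorial k := by
  classical
  have := Fintype.card_embedding_eq (α := Fin k) (β := Fin n)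
  rw [Fintype.card_fin, Fintype.card_fin] at this
  rw [← this, Inj, ← Fintype.card_subtype]
  exact Fintype.card_congr (Equiv.subtypeInjectiveEquivEmbedding _ _)

lemma card_Inj_at {k n : ℕ} (b : Fin k) (v : Fin n) :
    n * ((Inj k n).filter (fun g => g b = v)).card = (Inj k n).card := by
  classical
  have h1 : ∀ w : Fin n, ((Inj k n).filter (fun g => g b = w)).card
      = ((Inj k n).filter (fun g => g b = v)).card := by
    intro w
    apply Finset.card_bij' (fun g _ => fun a => Equiv.swap v w (g a))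
      (fun g _ => fun a => Equiv.swap v w (g a))
    · intro g hg
      simp only [Inj, mem_filter, mem_univ, true_and] at hg ⊢
      refine ⟨fun a a' h => hg.1 ((Equiv.swap v w).injective h), ?_⟩
      rw [hg.2]; simp
    · intro g hg
      simp only [Inj, mem_filter, mem_univ, true_and] at hg ⊢
      refine ⟨fun a a' h => hg.1 ((Equiv.swap v w).injective h), ?_⟩
      rw [hg.2]; simp
    · intro g _; funext a; simp
    · intro g _; funext a; simp
  have h2 : (Inj k n).card = ∑ w : Fin n, ((Inj k n).filter (fun g => g b = w)).card := by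
    rw [← Finset.card_eq_sum_card_fiberwise]
    intro g _; simp
  rw [h2, Finset.sum_congr rfl (fun w _ => h1 w)]
  simp

open Classical in
/-- pairs of injections whose images meet -/
noncomputable def bad (k n : ℕ) : Finset ((Fin k → Fin n) × (Fin k → Fin n)) :=
  (Inj k n ×ˢ Inj k n).filter (fun q => ∃ a b, q.1 a = q.2 b)

lemma card_bad (k n : ℕ) : n * (bad k n).card ≤ k ^ 2 * (Inj k n).card ^ 2 := by
  classical
  have h1 : bad k n ⊆ (univ : Finset (Fin k × Fin k)).biUnion (fun ab =>
      (Inj k n ×ˢ Inj k n).filter (fun q => q.1 ab.1 = q.2 ab.2)) := by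
    intro q hq
    simp only [bad, mem_filter] at hq
    obtain ⟨hq1, a, b, hab⟩ := hq
    simp only [mem_biUnion, mem_univ, true_and, mem_filter]
    exact ⟨(a, b), hq1, hab⟩
  have h2 : ∀ ab : Fin k × Fin k, n * ((Inj k n ×ˢ Inj k n).filter
      (fun q => q.1 ab.1 = q.2 ab.2)).card = (Inj k n).card ^ 2 := by
    intro ab
    have : ((Inj k n ×ˢ Inj k n).filter (fun q => q.1 ab.1 = q.2 ab.2)).card
        = ∑ f ∈ Inj k n, ((Inj k n).filter (fun g => g ab.2 = f ab.1)).card := by
      rw [Finset.card_filter, Finset.sum_product]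
      apply Finset.sum_congr rfl
      intro f _
      rw [Finset.card_filter]
      apply Finset.sum_congr rfl
      intro g _
      simp only [eq_comm]
    rw [this, Finset.mul_sum, Finset.sum_congr rfl (fun f _ => card_Inj_at ab.2 (f ab.1))]
    simp [sq]
  calc n * (bad k n).card ≤ n * ∑ ab : Fin k × Fin k, ((Inj k n ×ˢ Inj k n).filter
      (fun q => q.1 ab.1 = q.2 ab.2)).card := by
        apply Nat.mul_le_mul_left
        exact (Finset.card_le_card h1).trans Finset.card_biUnion_le
    _ = k ^ 2 * (Inj k n).card ^ 2 := by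
        rw [Finset.mul_sum, Finset.sum_congr rfl (fun ab _ => h2 ab)]
        simp [sq]

open Classical in
/-- number of labelled copies -/
noncomputable def X {k n L : ℕ} (P : Finset (Fin k × Fin k)) (T : K → K → ℕ)
    (τ : Fin n → K) (ω : Sym2 (Fin n) → Fin L) : ℝ :=
  ∑ f ∈ Inj k n, (if ev P T f τ ω then (1 : ℝ) else 0)

open Classical in
lemma second {k n L : ℕ} (hL : 0 < L) (hkn : k ≤ n)
    (P : Finset (Fin k × Fin k)) (hP : ∀ e ∈ P, ∀ e' ∈ P, s(e.1, e.2) = s(e'.1, e'.2) → e = e')
    (T : K → K → ℕ) (hT : ∀ x y, T x y ≤ L) :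
    (∑ τ : Fin n → K, ∑ ω : Sym2 (Fin n) → Fin L,
        (X P T τ ω / (n.descFactorial k : ℝ) - tden (Fin k) P T L) ^ 2)
      ≤ (Fintype.card K : ℝ) ^ n * (L : ℝ) ^ (Fintype.card (Sym2 (Fin n))) * ((k : ℝ) ^ 2 / n) := by
  set N : ℝ := (Fintype.card K : ℝ) ^ n * (L : ℝ) ^ (Fintype.card (Sym2 (Fin n))) with hN
  set t := tden (Fin k) P T L with ht
  set D : ℝ := (n.descFactorial k : ℝ) with hD
  have hDpos : 0 < D := by
    rw [hD]; exact_mod_cast Nat.descFactorial_pos.2 hkn
  have hN0 : 0 ≤ N := by positivity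
  have hcard : ((Inj k n).card : ℝ) = D := by rw [card_Inj]
  -- first moment
  have hX1 : (∑ τ : Fin n → K, ∑ ω : Sym2 (Fin n) → Fin L, X P T τ ω) = D * (N * t) := by
    unfold X
    simp_rw [Finset.sum_comm (s := (univ : Finset (Sym2 (Fin n) → Fin L)))]
    rw [Finset.sum_comm]
    rw [Finset.sum_congr rfl (fun f hf => prob_all hL P hP T hT f (by
      simpa [Inj] using hf))]
    simp [hcard, hN, ht]
  -- second moment
  have hX2 : (∑ τ : Fin n → K, ∑ ω : Sym2 (Fin n) → Fin L, (X P T τ ω) ^ 2)
      ≤ D ^ 2 * (N * t ^ 2) + N * (bad k n).card := by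
    have e1 : ∀ τ : Fin n → K, ∀ ω : Sym2 (Fin n) → Fin L, (X P T τ ω) ^ 2
        = ∑ q ∈ Inj k n ×ˢ Inj k n, (if ev P T q.1 τ ω ∧ ev P T q.2 τ ω then (1 : ℝ) else 0) := by
      intro τ ω
      unfold X
      rw [sq, Finset.sum_mul_sum, ← Finset.sum_product']
      apply Finset.sum_congr rfl
      intro q _
      by_cases h1 : ev P T q.1 τ ω <;> by_cases h2 : ev P T q.2 τ ω <;> simp [h1, h2]
    simp_rw [e1]
    simp_rw [Finset.sum_comm (s := (univ : Finset (Sym2 (Fin n) → Fin L)))]
    rw [Finset.sum_comm]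
    rw [← Finset.sum_filter_add_sum_filter_not (Inj k n ×ˢ Inj k n) (fun q => ∃ a b, q.1 a = q.2 b)]
    rw [add_comm]
    apply add_le_add
    · -- disjoint pairs
      have e2 : ∀ q ∈ (Inj k n ×ˢ Inj k n).filter (fun q => ¬ ∃ a b, q.1 a = q.2 b),
          (∑ τ : Fin n → K, ∑ ω : Sym2 (Fin n) → Fin L,
            (if ev P T q.1 τ ω ∧ ev P T q.2 τ ω then (1 : ℝ) else 0)) = N * t ^ 2 := by
        intro q hq
        simp only [mem_filter, mem_product, Inj, mem_univ, true_and] at hq
        obtain ⟨⟨hq1, hq2⟩, hq3⟩ := hq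
        have hinj : Function.Injective (Sum.elim q.1 q.2) := by
          apply Function.Injective.sumElim hq1 hq2
          intro a b hab
          exact hq3 ⟨a, b, hab⟩
        have := prob_all (n := n) hL (dbl P) (by
          intro e he e' he' hee
          simp only [dbl, mem_union, mem_image] at he he'
          rcases he with ⟨⟨a, b⟩, hab, rfl⟩ | ⟨⟨a, b⟩, hab, rfl⟩ <;>
            rcases he' with ⟨⟨c, d⟩, hcd, rfl⟩ | ⟨⟨c, d⟩, hcd, rfl⟩
          · have : s(a, b) = s(c, d) := by
              have h' : Sym2.map (Sum.inl : Fin k → Fin k ⊕ Fin k) s(a, b) = Sym2.map Sum.inl s(c, d) := by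
                simpa [Sym2.map_mk] using hee
              exact Sym2.map.injective Sum.inl_injective h'
            have := hP (a, b) hab (c, d) hcd this
            simp only [Prod.mk.injEq] at this
            simp [this.1, this.2]
          · simp at hee
          · simp at hee
          · have : s(a, b) = s(c, d) := by
              have h' : Sym2.map (Sum.inr : Fin k → Fin k ⊕ Fin k) s(a, b) = Sym2.map Sum.inr s(c, d) := by
                simpa [Sym2.map_mk] using hee
              exact Sym2.map.injective Sum.inr_injective h'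
            have := hP (a, b) hab (c, d) hcd this
            simp only [Prod.mk.injEq] at this
            simp [this.1, this.2]) T hT (Sum.elim q.1 q.2) hinj
        rw [tden_dbl] at this
        rw [hN, ht, ← this]
        apply Finset.sum_congr rfl
        intro τ _
        apply Finset.sum_congr rfl
        intro ω _
        congr 1
        apply propext
        unfold ev dbl
        constructor
        · rintro ⟨h1, h2⟩ e he
          simp only [mem_union, mem_image] at he
          rcases he with ⟨a, ha, rfl⟩ | ⟨a, ha, rfl⟩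
          · exact h1 a ha
          · exact h2 a ha
        · intro h
          refine ⟨fun e he => ?_, fun e he => ?_⟩
          · exact h (Sum.inl e.1, Sum.inl e.2) (Finset.mem_union_left _ (Finset.mem_image_of_mem _ he))
          · exact h (Sum.inr e.1, Sum.inr e.2) (Finset.mem_union_right _ (Finset.mem_image_of_mem _ he))
      rw [Finset.sum_congr rfl e2]
      simp only [sum_const, nsmul_eq_mul]
      apply mul_le_mul_of_nonneg_right _ (by positivity)
      rw [← hcard, sq, ← Nat.cast_mul, ← Finset.card_product]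
      exact_mod_cast Finset.card_filter_le _ _
    · -- meeting pairs
      have e3 : ∀ q ∈ (Inj k n ×ˢ Inj k n).filter (fun q => ∃ a b, q.1 a = q.2 b),
          (∑ τ : Fin n → K, ∑ ω : Sym2 (Fin n) → Fin L,
            (if ev P T q.1 τ ω ∧ ev P T q.2 τ ω then (1 : ℝ) else 0)) ≤ N := by
        intro q _
        calc (∑ τ : Fin n → K, ∑ ω : Sym2 (Fin n) → Fin L,
            (if ev P T q.1 τ ω ∧ ev P T q.2 τ ω then (1 : ℝ) else 0))
            ≤ ∑ τ : Fin n → K, ∑ ω : Sym2 (Fin n) → Fin L, (1 : ℝ) := by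
              apply Finset.sum_le_sum; intro τ _
              apply Finset.sum_le_sum; intro ω _
              split_ifs <;> norm_num
          _ = N := by
              simp [hN, Fintype.card_fun]
      refine (Finset.sum_le_sum e3).trans ?_
      simp only [sum_const, nsmul_eq_mul]
      rw [mul_comm]
      apply le_of_eq
      rfl
  -- combine
  have hn : 0 < n ∨ n = 0 := by omega
  have hbad : ((bad k n).card : ℝ) ≤ D ^ 2 * ((k : ℝ) ^ 2 / n) := by
    rcases hn with hn | hn
    · have := card_bad k n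
      have h' : (n : ℝ) * (bad k n).card ≤ (k : ℝ) ^ 2 * D ^ 2 := by
        rw [← hcard]; exact_mod_cast this
      have hn' : (0 : ℝ) < n := by exact_mod_cast hn
      rw [mul_div_assoc', le_div_iff₀ hn']
      linarith
    · subst hn
      have hk : k = 0 := by omega
      subst hk
      have : bad 0 0 = ∅ := by
        unfold bad
        rw [Finset.filter_eq_empty_iff]
        rintro q _ ⟨a, _⟩
        exact a.elim0
      rw [this]; simp
  have hexp : (∑ τ : Fin n → K, ∑ ω : Sym2 (Fin n) → Fin L, (X P T τ ω / D - t) ^ 2)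
      = (∑ τ : Fin n → K, ∑ ω : Sym2 (Fin n) → Fin L, (X P T τ ω) ^ 2) / D ^ 2
        - 2 * t / D * (∑ τ : Fin n → K, ∑ ω : Sym2 (Fin n) → Fin L, X P T τ ω) + N * t ^ 2 := by
    have : N * t ^ 2 = ∑ τ : Fin n → K, ∑ ω : Sym2 (Fin n) → Fin L, t ^ 2 := by
      simp [hN, Fintype.card_fun]
      ring
    rw [this, Finset.sum_div, Finset.mul_sum, ← Finset.sum_sub_distrib, ← Finset.sum_add_distrib]
    apply Finset.sum_congr rfl; intro τ _
    rw [Finset.sum_div, Finset.mul_sum, ← Finset.sum_sub_distrib, ← Finset.sum_add_distrib]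
    apply Finset.sum_congr rfl; intro ω _
    field_simp
    ring
  rw [hexp, hX1]
  have h5 : (∑ τ : Fin n → K, ∑ ω : Sym2 (Fin n) → Fin L, (X P T τ ω) ^ 2) / D ^ 2
      ≤ N * t ^ 2 + N * ((k : ℝ) ^ 2 / n) := by
    rw [div_le_iff₀ (by positivity)]
    calc _ ≤ D ^ 2 * (N * t ^ 2) + N * (bad k n).card := hX2
      _ ≤ D ^ 2 * (N * t ^ 2) + N * (D ^ 2 * ((k : ℝ) ^ 2 / n)) := by
          gcongr
      _ = _ := by ring
  have h6 : 2 * t / D * (D * (N * t)) = 2 * (N * t ^ 2) := by
    field_simp
  rw [h6]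
  linarith

end Run7.h588.BR
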