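import Mathlib

/-! Independence of random thresholds and random types. -/

namespace Run7.h588.BR
open Finset

/-- number of functions satisfying a threshold condition at each point of an injective family -/
lemma card_thresh {ι Z : Type*} [DecidableEq ι] [Fintype Z] [DecidableEq Z] (P : Finset ι)
    (φ : ι → Z) (hφ : Set.InjOn φ P) (L : ℕ) (hL : 0 < L) (T : ι → ℕ) (hT : ∀ e ∈ P, T e ≤ L) :
    (∑ ω : Z → Fin L, (if ∀ e ∈ P, (ω (φ e) : ℕ) < T e then (1 : ℝ) else 0))
      = (L : ℝ) ^ (Fintype.card Z) * ∏ e ∈ P, ((T e : ℝ) / L) := by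
  classical
  set A : Z → Finset (Fin L) := fun z => univ.filter (fun c : Fin L => ∀ e ∈ P, φ e = z → (c : ℕ) < T e)
    with hA
  have h1 : (univ.filter (fun ω : Z → Fin L => ∀ e ∈ P, (ω (φ e) : ℕ) < T e))
      = Fintype.piFinset A := by
    ext ω
    simp only [mem_filter, mem_univ, true_and, Fintype.mem_piFinset, hA]
    constructor
    · intro h z e he hz
      rw [← hz]; exact h e he
    · intro h e he
      exact h (φ e) e he rfl
  rw [← Finset.sum_filter, h1]
  simp only [sum_const, nsmul_eq_mul, mul_one]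
  rw [Fintype.card_piFinset]
  push_cast
  have hL' : (L : ℝ) ≠ 0 := by positivity
  have h2 : ∀ z, ((A z).card : ℝ) = L * (((A z).card : ℝ) / L) := by
    intro z; field_simp
  rw [Finset.prod_congr rfl (fun z _ => h2 z), Finset.prod_mul_distrib]
  simp only [prod_const, card_univ]
  congr 1
  have h3 : ∀ z ∉ P.image φ, (((A z).card : ℝ) / L) = 1 := by
    intro z hz
    have : A z = univ := by
      rw [hA]; simp only
      rw [Finset.filter_eq_self]
      intro c _ e he hez
      exact absurd (Finset.mem_image.2 ⟨e, he, hez⟩) hz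
    rw [this]; simp [hL']
  rw [← Finset.prod_subset (Finset.subset_univ (P.image φ)) (fun z _ hz => h3 z hz)]
  rw [Finset.prod_image (fun x hx y hy h => hφ hx hy h)]
  apply Finset.prod_congr rfl
  intro e he
  congr 1
  have : A (φ e) = univ.filter (fun c : Fin L => (c : ℕ) < T e) := by
    rw [hA]; ext c
    simp only [mem_filter, mem_univ, true_and]
    constructor
    · intro h; exact h e he rfl
    · intro h e' he' hee
      have : e' = e := hφ he' he hee
      rw [this]; exact h
  rw [this]
  have h4 : (univ.filter (fun c : Fin L => (c : ℕ) < T e)).card = T e := by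
    have := hT e he
    rw [Fin.card_filter_val_lt]
    omega
  rw [h4]

/-- restriction of uniform functions along an injection is uniform -/
lemma sum_comp_inj {V Z K : Type*} [Fintype V] [Fintype Z] [DecidableEq V] [DecidableEq Z]
    [Fintype K] [Nonempty K] (h : V → Z) (hinj : Function.Injective h) (u : (V → K) → ℝ) :
    (∑ τ : Z → K, u (fun v => τ (h v)))
      = (Fintype.card K : ℝ) ^ (Fintype.card Z) * (((Fintype.card K : ℝ) ^ (Fintype.card V))⁻¹ *
        ∑ x : V → K, u x) := by
  classical
  let e1 : V ≃ Set.range h := Equiv.ofInjective h hinj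
  let e2 : V ⊕ ((Set.range h)ᶜ : Set Z) ≃ Z :=
    (Equiv.sumCongr e1 (Equiv.refl _)).trans (Equiv.Set.sumCompl (Set.range h))
  have he2 : ∀ v, e2 (Sum.inl v) = h v := by
    intro v; simp [e2, e1]
  let e3 : (Z → K) ≃ (V → K) × (((Set.range h)ᶜ : Set Z) → K) :=
    (Equiv.arrowCongr e2.symm (Equiv.refl K)).trans (Equiv.sumArrowEquivProdArrow _ _ _)
  have he3 : ∀ τ v, (e3 τ).1 v = τ (h v) := by
    intro τ v
    simp [e3, Equiv.sumArrowEquivProdArrow, he2]
  have h1 : (∑ τ : Z → K, u (fun v => τ (h v))) = ∑ q : (V → K) × (((Set.range h)ᶜ : Set Z) → K), u q.1 := by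
    rw [← Equiv.sum_comp e3]
    apply Finset.sum_congr rfl
    intro τ _
    exact congrArg u (by funext v; rw [he3])
  rw [h1, Fintype.sum_prod_type]
  simp only [sum_const, card_univ, nsmul_eq_mul]
  rw [← Finset.mul_sum]
  have hc : Fintype.card Z = Fintype.card V + Fintype.card ((Set.range h)ᶜ : Set Z) := by
    rw [← Fintype.card_congr e2, Fintype.card_sum]
  rw [Fintype.card_fun, hc]
  push_cast
  have hK : (Fintype.card K : ℝ) ≠ 0 := by
    have : 0 < Fintype.card K := Fintype.card_pos
    positivity
  rw [pow_add]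
  field_simp

end Run7.h588.BR
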