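import Pool.Agent.Run7.h588.BR.Main

/-! Choice of the parameters. -/

namespace Run7.h588.BR
open Finset Filter Topology

lemma exists_c_pos (D : ℕ) (hD : 0 < D) : ∃ c : ℤˣ → ℕ,
    (∀ u : ℤˣ, (c u : ℝ) = D * (1 + (1 / (D : ℝ)) * ((u : ℤ) : ℝ))) ∧ ∀ u, c u ≤ 2 * D := by
  have hD' : (D : ℝ) ≠ 0 := by positivity
  refine ⟨fun u => if u = 1 then D + 1 else D - 1, ?_, ?_⟩
  · intro u
    rcases Int.units_eq_one_or u with rfl | rfl
    · simp; field_simp
    · simp only [show ((-1 : ℤˣ) = 1) = False by simp, if_false]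
      rw [Nat.cast_sub hD]
      push_cast
      field_simp
      ring
  · intro u
    simp only
    split_ifs <;> omega

lemma exists_c_neg (D : ℕ) (hD : 0 < D) : ∃ c : ℤˣ → ℕ,
    (∀ u : ℤˣ, (c u : ℝ) = D * (1 + (-(1 / (D : ℝ))) * ((u : ℤ) : ℝ))) ∧ ∀ u, c u ≤ 2 * D := by
  have hD' : (D : ℝ) ≠ 0 := by positivity
  refine ⟨fun u => if u = 1 then D - 1 else D + 1, ?_, ?_⟩
  · intro u
    rcases Int.units_eq_one_or u with rfl | rfl
    · simp only [if_true]
      rw [Nat.cast_sub hD]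
      push_cast
      field_simp
      ring
    · simp only [show ((-1 : ℤˣ) = 1) = False by simp, if_false]
      push_cast
      field_simp
  · intro u
    simp only
    split_ifs <;> omega

/-- the fourth power condition -/
lemma tendsto_four (z : ℕ → ℝ) (M : ℕ → ℕ) (b : ℕ → ℝ) (hb : Tendsto b atTop (𝓝 0))
    (h : ∀ j, (M j : ℝ) * z j ^ 4 ≤ b j) :
    Tendsto (fun j => (1 + z j ^ 4) ^ (M j)) atTop (𝓝 1) := by
  have h1 : Tendsto (fun j => Real.exp (b j)) atTop (𝓝 1) := by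
    have := (Real.continuous_exp.tendsto 0).comp hb
    simpa [Function.comp_def] using this
  refine tendsto_of_tendsto_of_tendsto_of_le_of_le tendsto_const_nhds h1 ?_ ?_
  · intro j
    apply one_le_pow₀
    have : 0 ≤ z j ^ 4 := by positivity
    linarith
  · intro j
    simp only
    have h2 : 1 + z j ^ 4 ≤ Real.exp (z j ^ 4) := by
      have := Real.add_one_le_exp (z j ^ 4); linarith
    calc (1 + z j ^ 4) ^ (M j) ≤ (Real.exp (z j ^ 4)) ^ (M j) :=
          pow_le_pow_left₀ (by positivity) h2 _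
      _ = Real.exp ((M j : ℝ) * z j ^ 4) := by rw [← Real.exp_nat_mul]
      _ ≤ Real.exp (b j) := Real.exp_le_exp.2 (h j)

lemma pow_bound (q x : ℝ) (M : ℕ) (B : ℝ) (hq0 : 0 ≤ q) (hq : q ≤ 1 + x) (hB : (M : ℝ) * x ≤ B) :
    q ^ M ≤ Real.exp B := by
  have h2 : q ≤ Real.exp x := by
    have := Real.add_one_le_exp x; linarith
  calc q ^ M ≤ (Real.exp x) ^ M := pow_le_pow_left₀ hq0 h2 _
    _ = Real.exp ((M : ℝ) * x) := by rw [← Real.exp_nat_mul]
    _ ≤ Real.exp B := Real.exp_le_exp.2 hB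

lemma abs_inv_le (j : ℕ) : |1 / (((j + 1 : ℕ)) : ℝ)| ≤ 1 := by
  rw [abs_of_nonneg (by positivity), div_le_one (by positivity)]
  push_cast
  linarith [(Nat.cast_nonneg j : (0 : ℝ) ≤ j)]

/-- limit of `(1 + s x_j)^M_j` with `M_j x_j → c`, `x_j → 0` -/
lemma tendsto_three (s c : ℝ) (x : ℕ → ℝ) (M : ℕ → ℕ) (hx : Tendsto x atTop (𝓝 0))
    (hx0 : ∀ᶠ j in atTop, x j ≠ 0)
    (hM : Tendsto (fun j => (M j : ℝ) * x j) atTop (𝓝 c)) :
    Tendsto (fun j => (1 + s * x j) ^ (M j)) atTop (𝓝 (Real.exp (s * c))) := by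
  have h1 : Tendsto (fun j => s * x j) atTop (𝓝 0) := by simpa using hx.const_mul s
  have hpos : ∀ᶠ j in atTop, 0 < 1 + s * x j := by
    have : Tendsto (fun j => 1 + s * x j) atTop (𝓝 (1 + 0)) := tendsto_const_nhds.add h1
    rw [add_zero] at this
    exact this.eventually_const_lt (by norm_num)
  have hder : HasDerivAt (fun y : ℝ => Real.log (1 + s * y)) s 0 := by
    have h2 : HasDerivAt (fun y : ℝ => 1 + s * y) s 0 := by
      simpa using ((hasDerivAt_id (0 : ℝ)).const_mul s).const_add 1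
    have h3 := h2.log (by simp)
    simpa using h3
  have hsl := hder.tendsto_slope_zero
  have hsl2 : Tendsto (fun j => (x j)⁻¹ * Real.log (1 + s * x j)) atTop (𝓝 s) := by
    have h4 : Tendsto x atTop (𝓝[≠] 0) := by
      rw [tendsto_nhdsWithin_iff]
      exact ⟨hx, hx0⟩
    have := hsl.comp h4
    simpa [Function.comp_def] using this
  have h5 : Tendsto (fun j => ((M j : ℝ) * x j) * ((x j)⁻¹ * Real.log (1 + s * x j))) atTop
      (𝓝 (c * s)) := hM.mul hsl2
  have h6 := (Real.continuous_exp.tendsto (c * s)).comp h5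
  rw [mul_comm c s] at h6
  refine h6.congr' ?_
  filter_upwards [hpos, hx0] with j hj hj0
  simp only [Function.comp]
  have : (M j : ℝ) * x j * ((x j)⁻¹ * Real.log (1 + s * x j)) = (M j : ℝ) * Real.log (1 + s * x j) := by
    field_simp
  rw [this, Real.exp_nat_mul, Real.exp_log hj]

lemma tendsto_floor (c : ℝ) (hc : 0 ≤ c) :
    Tendsto (fun j : ℕ => ((⌊c * ((j : ℝ) + 1) ^ 3⌋₊ : ℕ) : ℝ) * (1 / ((j : ℝ) + 1) ^ 3)) atTop (𝓝 c) := by
  have hlow : Tendsto (fun j : ℕ => c - 1 / ((j : ℝ) + 1) ^ 3) atTop (𝓝 c) := by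
    have h1 : Tendsto (fun j : ℕ => (1 / ((j : ℝ) + 1)) ^ 3) atTop (𝓝 (0 ^ 3)) :=
      tendsto_one_div_add_atTop_nhds_zero_nat.pow 3
    have h2 : Tendsto (fun j : ℕ => c - (1 / ((j : ℝ) + 1)) ^ 3) atTop (𝓝 (c - 0 ^ 3)) :=
      tendsto_const_nhds.sub h1
    simpa [one_div] using h2
  refine tendsto_of_tendsto_of_tendsto_of_le_of_le hlow tendsto_const_nhds ?_ ?_
  · intro j
    have hpos : (0 : ℝ) < ((j : ℝ) + 1) ^ 3 := by positivity
    have h1 := (Nat.lt_floor_add_one (c * ((j : ℝ) + 1) ^ 3)).le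
    simp only
    rw [mul_one_div, le_div_iff₀ hpos, sub_mul, one_div, inv_mul_cancel₀ hpos.ne']
    linarith
  · intro j
    have hpos : (0 : ℝ) < ((j : ℝ) + 1) ^ 3 := by positivity
    have h1 := Nat.floor_le (show 0 ≤ c * ((j : ℝ) + 1) ^ 3 by positivity)
    simp only
    rw [mul_one_div, div_le_iff₀ hpos]
    exact h1

lemma floor_mul_le (c : ℝ) (hc : 0 ≤ c) (j : ℕ) :
    ((⌊c * ((j : ℝ) + 1) ^ 3⌋₊ : ℕ) : ℝ) * (1 / ((j : ℝ) + 1)) ^ 3 ≤ c := by
  have hpos : (0 : ℝ) < ((j : ℝ) + 1) ^ 3 := by positivity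
  have h1 := Nat.floor_le (show 0 ≤ c * ((j : ℝ) + 1) ^ 3 by positivity)
  rw [div_pow, one_pow, mul_one_div, div_le_iff₀ hpos]
  exact h1

theorem final (θ : ℝ) (hθ : 0 ≤ θ) :
    ∃ (p : ℕ → ℝ) (G : ∀ n : ℕ, SimpleGraph (Fin n)),
      (∀ n, 0 < p n ∧ p n ≤ 1) ∧
      Tendsto (fun n : ℕ => Real.log (1 / p n) / Real.log n) atTop (𝓝 0) ∧
      (∀ n, ((G n).edgeSet.ncard : ℝ) = p n * (n.choose 2 : ℝ)) ∧
      Tendsto (fun n => dens (p n) (SimpleGraph.cycleGraph 4) (G n)) atTop (𝓝 1) ∧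
      (∀ (k : ℕ) (F : SimpleGraph (Fin k)), ∃ C : ℝ, ∀ n, dens (p n) F (G n) ≤ C) ∧
      Tendsto (fun n => dens (p n) (⊤ : SimpleGraph (Fin 3)) (G n)) atTop (𝓝 θ) := by
  rcases hθ.eq_or_lt with h0 | hpos
  · -- limit zero
    subst h0
    have hz : ∀ j : ℕ, -1 ≤ -(1 / (((j + 1) ^ 2 : ℕ) : ℝ)) := by
      intro j
      rw [neg_le_neg_iff, div_le_one (by positivity)]
      push_cast
      nlinarith [(Nat.cast_nonneg j : (0 : ℝ) ≤ j)]
    have hMz4 : ∀ j : ℕ, (((j + 1) ^ 7 : ℕ) : ℝ) * (-(1 / (((j + 1) ^ 2 : ℕ) : ℝ))) ^ 4 = 1 / ((j : ℝ) + 1) := by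
      intro j
      push_cast
      field_simp
    refine main 0 (fun j => (j + 1) ^ 2) (fun j => (j + 1) ^ 7) (fun j => -(1 / (((j + 1) ^ 2 : ℕ) : ℝ)))
      (fun j => by positivity) (fun j => exists_c_neg _ (by positivity)) ?_ ?_ ?_
    · have h1 : Tendsto (fun j : ℕ => Real.exp (-((j : ℝ) + 1))) atTop (𝓝 0) := by
        apply Real.tendsto_exp_neg_atTop_nhds_zero.comp
        exact tendsto_atTop_add_const_right _ _ tendsto_natCast_atTop_atTop
      refine tendsto_of_tendsto_of_tendsto_of_le_of_le tendsto_const_nhds h1 ?_ ?_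
      · intro j
        apply pow_nonneg
        have h2 : -1 ≤ (-(1 / (((j + 1) ^ 2 : ℕ) : ℝ))) ^ 3 := by
          have h3 := hz j
          have h4 : -(1 / (((j + 1) ^ 2 : ℕ) : ℝ)) ≤ 0 := by
            rw [neg_nonpos]; positivity
          nlinarith [sq_nonneg (-(1 / (((j + 1) ^ 2 : ℕ) : ℝ))), sq_nonneg (1 + -(1 / (((j + 1) ^ 2 : ℕ) : ℝ)))]
        linarith
      · intro j
        simp only
        have h2 : 1 + (-(1 / (((j + 1) ^ 2 : ℕ) : ℝ))) ^ 3 ≤ Real.exp ((-(1 / (((j + 1) ^ 2 : ℕ) : ℝ))) ^ 3) := by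
          have := Real.add_one_le_exp ((-(1 / (((j + 1) ^ 2 : ℕ) : ℝ))) ^ 3); linarith
        have h3 : 0 ≤ 1 + (-(1 / (((j + 1) ^ 2 : ℕ) : ℝ))) ^ 3 := by
          have h3 := hz j
          have h4 : -(1 / (((j + 1) ^ 2 : ℕ) : ℝ)) ≤ 0 := by
            rw [neg_nonpos]; positivity
          nlinarith [sq_nonneg (-(1 / (((j + 1) ^ 2 : ℕ) : ℝ))), sq_nonneg (1 + -(1 / (((j + 1) ^ 2 : ℕ) : ℝ)))]
        refine (pow_le_pow_left₀ h3 h2 _).trans ?_
        rw [← Real.exp_nat_mul]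
        apply Real.exp_le_exp.2
        apply le_of_eq
        push_cast
        field_simp
    · exact tendsto_four _ _ (fun j => 1 / ((j : ℝ) + 1)) tendsto_one_div_add_atTop_nhds_zero_nat
        (fun j => (hMz4 j).le)
    · intro k F
      refine ⟨Real.exp (2 ^ (pairs F).card), fun j => ?_⟩
      apply pow_bound _ (2 ^ (pairs F).card * (-(1 / (((j + 1) ^ 2 : ℕ) : ℝ))) ^ 4)
      · apply qq_nonneg
        rw [abs_neg, abs_of_nonneg (by positivity)]
        have := hz j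
        linarith
      · apply qq_le_four
        · rw [neg_nonpos]; positivity
        · exact hz j
      · have h1 := hMz4 j
        calc (((j + 1) ^ 7 : ℕ) : ℝ) * (2 ^ (pairs F).card * (-(1 / (((j + 1) ^ 2 : ℕ) : ℝ))) ^ 4)
            = 2 ^ (pairs F).card * ((((j + 1) ^ 7 : ℕ) : ℝ) * (-(1 / (((j + 1) ^ 2 : ℕ) : ℝ))) ^ 4) := by ring
          _ = 2 ^ (pairs F).card * (1 / ((j : ℝ) + 1)) := by rw [h1]
          _ ≤ 2 ^ (pairs F).card * 1 := by
              apply mul_le_mul_of_nonneg_left _ (by positivity)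
              rw [div_le_one (by positivity)]
              linarith [(Nat.cast_nonneg j : (0 : ℝ) ≤ j)]
          _ = _ := mul_one _
  · -- positive limit
    have hx : Tendsto (fun j : ℕ => (1 / ((j : ℝ) + 1)) ^ 3) atTop (𝓝 0) := by
      have := (tendsto_one_div_add_atTop_nhds_zero_nat (𝕜 := ℝ)).pow 3
      simpa using this
    have hx0 : ∀ᶠ j : ℕ in atTop, (1 / ((j : ℝ) + 1)) ^ 3 ≠ 0 := by
      filter_upwards with j
      positivity
    have hx1 : ∀ j : ℕ, (1 / ((j : ℝ) + 1)) ≤ 1 := by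
      intro j
      rw [div_le_one (by positivity)]
      linarith [(Nat.cast_nonneg j : (0 : ℝ) ≤ j)]
    rcases le_total 1 θ with h1 | h1
    · -- `θ ≥ 1`
      set c := Real.log θ with hcdef
      have hc : 0 ≤ c := Real.log_nonneg h1
      have hcast : ∀ j : ℕ, ((j + 1 : ℕ) : ℝ) = (j : ℝ) + 1 := by intro j; push_cast; ring
      refine main θ (fun j => j + 1) (fun j => ⌊c * ((j : ℝ) + 1) ^ 3⌋₊) (fun j => 1 / ((j : ℝ) + 1))
        (fun j => by positivity) (fun j => by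
          have := exists_c_pos (j + 1) (by positivity)
          rw [hcast] at this ⊢
          exact this) ?_ ?_ ?_
      · have h2 := tendsto_three 1 c (fun j : ℕ => (1 / ((j : ℝ) + 1)) ^ 3)
          (fun j => ⌊c * ((j : ℝ) + 1) ^ 3⌋₊) hx hx0 (by
            have := tendsto_floor c hc
            simpa [one_div] using this)
        rw [one_mul, hcdef, Real.exp_log hpos] at h2
        simpa using h2
      · apply tendsto_four _ _ (fun j => c * (1 / ((j : ℝ) + 1)))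
        · simpa using (tendsto_one_div_add_atTop_nhds_zero_nat (𝕜 := ℝ)).const_mul c
        · intro j
          have h2 := floor_mul_le c hc j
          have h3 : (0 : ℝ) ≤ 1 / ((j : ℝ) + 1) := by positivity
          calc ((⌊c * ((j : ℝ) + 1) ^ 3⌋₊ : ℕ) : ℝ) * (1 / ((j : ℝ) + 1)) ^ 4
              = (((⌊c * ((j : ℝ) + 1) ^ 3⌋₊ : ℕ) : ℝ) * (1 / ((j : ℝ) + 1)) ^ 3) * (1 / ((j : ℝ) + 1)) := by ring
            _ ≤ c * (1 / ((j : ℝ) + 1)) := mul_le_mul_of_nonneg_right h2 h3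
      · intro k F
        refine ⟨Real.exp (2 ^ (pairs F).card * c), fun j => ?_⟩
        apply pow_bound _ (2 ^ (pairs F).card * (1 / ((j : ℝ) + 1)) ^ 3)
        · apply qq_nonneg
          rw [abs_of_nonneg (by positivity)]
          exact hx1 j
        · exact qq_le_three F _ (by positivity) (hx1 j)
        · have h2 := floor_mul_le c hc j
          calc ((⌊c * ((j : ℝ) + 1) ^ 3⌋₊ : ℕ) : ℝ) * (2 ^ (pairs F).card * (1 / ((j : ℝ) + 1)) ^ 3)
              = 2 ^ (pairs F).card * (((⌊c * ((j : ℝ) + 1) ^ 3⌋₊ : ℕ) : ℝ) * (1 / ((j : ℝ) + 1)) ^ 3) := by ring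
            _ ≤ 2 ^ (pairs F).card * c := mul_le_mul_of_nonneg_left h2 (by positivity)
    · -- `θ ≤ 1`
      set c := -Real.log θ with hcdef
      have hc : 0 ≤ c := by
        rw [hcdef, neg_nonneg]
        exact Real.log_nonpos hpos.le h1
      have hcast : ∀ j : ℕ, ((j + 1 : ℕ) : ℝ) = (j : ℝ) + 1 := by intro j; push_cast; ring
      refine main θ (fun j => j + 1) (fun j => ⌊c * ((j : ℝ) + 1) ^ 3⌋₊) (fun j => -(1 / ((j : ℝ) + 1)))
        (fun j => by positivity) (fun j => by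
          have := exists_c_neg (j + 1) (by positivity)
          rw [hcast] at this ⊢
          exact this) ?_ ?_ ?_
      · have h2 := tendsto_three (-1) c (fun j : ℕ => (1 / ((j : ℝ) + 1)) ^ 3)
          (fun j => ⌊c * ((j : ℝ) + 1) ^ 3⌋₊) hx hx0 (by
            have := tendsto_floor c hc
            simpa [one_div] using this)
        rw [hcdef, neg_mul_neg, one_mul, Real.exp_log hpos] at h2
        refine h2.congr (fun j => ?_)
        congr 1
        ring
      · apply tendsto_four _ _ (fun j => c * (1 / ((j : ℝ) + 1)))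
        · simpa using (tendsto_one_div_add_atTop_nhds_zero_nat (𝕜 := ℝ)).const_mul c
        · intro j
          have h2 := floor_mul_le c hc j
          have h3 : (0 : ℝ) ≤ 1 / ((j : ℝ) + 1) := by positivity
          calc ((⌊c * ((j : ℝ) + 1) ^ 3⌋₊ : ℕ) : ℝ) * (-(1 / ((j : ℝ) + 1))) ^ 4
              = (((⌊c * ((j : ℝ) + 1) ^ 3⌋₊ : ℕ) : ℝ) * (1 / ((j : ℝ) + 1)) ^ 3) * (1 / ((j : ℝ) + 1)) := by ring
            _ ≤ c * (1 / ((j : ℝ) + 1)) := mul_le_mul_of_nonneg_right h2 h3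
      · intro k F
        refine ⟨Real.exp (2 ^ (pairs F).card * c), fun j => ?_⟩
        have h3 : (0 : ℝ) ≤ 1 / ((j : ℝ) + 1) := by positivity
        apply pow_bound _ (2 ^ (pairs F).card * (-(1 / ((j : ℝ) + 1))) ^ 4)
        · apply qq_nonneg
          rw [abs_neg, abs_of_nonneg h3]
          exact hx1 j
        · exact qq_le_four F _ (by linarith) (by linarith [hx1 j])
        · have h2 := floor_mul_le c hc j
          calc ((⌊c * ((j : ℝ) + 1) ^ 3⌋₊ : ℕ) : ℝ) * (2 ^ (pairs F).card * (-(1 / ((j : ℝ) + 1))) ^ 4)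
              = 2 ^ (pairs F).card * ((((⌊c * ((j : ℝ) + 1) ^ 3⌋₊ : ℕ) : ℝ) * (1 / ((j : ℝ) + 1)) ^ 3) * (1 / ((j : ℝ) + 1))) := by ring
            _ ≤ 2 ^ (pairs F).card * (c * 1) := by
                apply mul_le_mul_of_nonneg_left _ (by positivity)
                exact mul_le_mul h2 (hx1 j) h3 hc
            _ = 2 ^ (pairs F).card * c := by rw [mul_one]

end Run7.h588.BR
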