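import Pool.Agent.Run7.h588.BR.Graph

/-! The weighted graphs `∏ (1 + z xᵢ yᵢ) / 2` on `{±1}^M`. -/

namespace Run7.h588.BR
open Finset

/-- thresholds -/
def Tw (M : ℕ) (c : ℤˣ → ℕ) (x y : Fin M → ℤˣ) : ℕ := ∏ i, c (x i * y i)

lemma Tw_symm (M : ℕ) (c : ℤˣ → ℕ) (x y : Fin M → ℤˣ) : Tw M c x y = Tw M c y x := by
  unfold Tw
  apply Finset.prod_congr rfl
  intro i _
  rw [mul_comm]

lemma Tw_le (M D : ℕ) (c : ℤˣ → ℕ) (hc : ∀ u, c u ≤ 2 * D) (x y : Fin M → ℤˣ) :
    Tw M c x y ≤ (2 * D) ^ M := by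
  unfold Tw
  refine (Finset.prod_le_pow_card _ _ (2 * D) (fun i _ => hc _)).trans ?_
  simp

/-- normalised density of one factor -/
noncomputable def qq {k : ℕ} (P : Finset (Fin k × Fin k)) (z : ℝ) : ℝ :=
  ((2 : ℝ) ^ k)⁻¹ * ∑ s : Fin k → ℤˣ, ∏ e ∈ P, (1 + z * (((s e.1 * s e.2 : ℤˣ) : ℤ) : ℝ))

lemma card_K (M : ℕ) : Fintype.card (Fin M → ℤˣ) = 2 ^ M := by
  simp [Fintype.card_fun, Fintype.card_units_int]

lemma tden_Tw {k : ℕ} (P : Finset (Fin k × Fin k)) (M D : ℕ) (hD : 0 < D) (c : ℤˣ → ℕ) (z : ℝ)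
    (hc : ∀ u : ℤˣ, (c u : ℝ) = D * (1 + z * ((u : ℤ) : ℝ))) :
    tden (Fin k) P (Tw M c) ((2 * D) ^ M) = (((2 : ℝ) ^ P.card)⁻¹ * qq P z) ^ M := by
  unfold tden qq
  have hD' : (D : ℝ) ≠ 0 := by positivity
  have h1 : ∀ x : Fin k → (Fin M → ℤˣ), ∏ e ∈ P, ((Tw M c (x e.1) (x e.2) : ℝ) / (((2 * D) ^ M : ℕ) : ℝ))
      = ∏ i : Fin M, (((2 : ℝ) ^ P.card)⁻¹ * ∏ e ∈ P, (1 + z * (((x e.1 i * x e.2 i : ℤˣ) : ℤ) : ℝ))) := by
    intro x
    have h2 : ∀ e : Fin k × Fin k, ((Tw M c (x e.1) (x e.2) : ℝ) / (((2 * D) ^ M : ℕ) : ℝ))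
        = ∏ i : Fin M, ((2 : ℝ)⁻¹ * (1 + z * (((x e.1 i * x e.2 i : ℤˣ) : ℤ) : ℝ))) := by
      intro e
      unfold Tw
      have h3 : (((2 * D) ^ M : ℕ) : ℝ) = ∏ i : Fin M, (2 * (D : ℝ)) := by
        simp
      rw [h3]
      push_cast
      rw [← Finset.prod_div_distrib]
      apply Finset.prod_congr rfl
      intro i _
      rw [hc]
      push_cast
      field_simp
    rw [Finset.prod_congr rfl (fun e _ => h2 e), Finset.prod_comm]
    apply Finset.prod_congr rfl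
    intro i _
    rw [Finset.prod_mul_distrib]
    simp
  simp_rw [h1]
  rw [card_K, Fintype.card_fin]
  have h4 : (∑ x : Fin k → (Fin M → ℤˣ), ∏ i : Fin M, (((2 : ℝ) ^ P.card)⁻¹ *
        ∏ e ∈ P, (1 + z * (((x e.1 i * x e.2 i : ℤˣ) : ℤ) : ℝ))))
      = (∑ s : Fin k → ℤˣ, (((2 : ℝ) ^ P.card)⁻¹ *
        ∏ e ∈ P, (1 + z * (((s e.1 * s e.2 : ℤˣ) : ℤ) : ℝ)))) ^ M := by
    rw [Fintype.sum_pow]
    rw [← Equiv.sum_comp (Equiv.piComm (fun (_ : Fin k) (_ : Fin M) => ℤˣ))]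
    rfl
  rw [h4, ← Finset.mul_sum, mul_pow, mul_pow, mul_pow]
  push_cast
  rw [← pow_mul, inv_pow ((2 : ℝ) ^ k), ← pow_mul, mul_comm M k]
  ring

/-- the character attached to a set of pairs -/
def fS {k : ℕ} (S : Finset (Fin k × Fin k)) : (Fin k → ℤˣ) →* ℝ where
  toFun s := ∏ e ∈ S, (((s e.1 * s e.2 : ℤˣ) : ℤ) : ℝ)
  map_one' := by simp
  map_mul' s t := by
    rw [← Finset.prod_mul_distrib]
    apply Finset.prod_congr rfl
    intro e _
    simp only [Pi.mul_apply]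
    push_cast
    ring

/-- mean of the character -/
noncomputable def ch {k : ℕ} (S : Finset (Fin k × Fin k)) : ℝ :=
  ((2 : ℝ) ^ k)⁻¹ * ∑ s : Fin k → ℤˣ, fS S s

open Classical in
lemma ch_eq {k : ℕ} (S : Finset (Fin k × Fin k)) : ch S = if fS S = 1 then 1 else 0 := by
  unfold ch
  rw [sum_hom_units]
  split_ifs
  · rw [card_K]; push_cast; field_simp
  · simp

lemma ch_nonneg {k : ℕ} (S : Finset (Fin k × Fin k)) : 0 ≤ ch S := by
  classical
  rw [ch_eq]; split_ifs <;> norm_num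

lemma ch_le {k : ℕ} (S : Finset (Fin k × Fin k)) : ch S ≤ 1 := by
  classical
  rw [ch_eq]; split_ifs <;> norm_num

lemma ch_empty {k : ℕ} : ch (∅ : Finset (Fin k × Fin k)) = 1 := by
  classical
  rw [ch_eq, if_pos]
  ext s
  simp [fS]

lemma ch_one {k : ℕ} (e : Fin k × Fin k) (he : e.1 < e.2) :
    ch ({e} : Finset (Fin k × Fin k)) = 0 := by
  classical
  rw [ch_eq, if_neg]
  intro h
  obtain ⟨a, b⟩ := e
  simp only at he
  have := DFunLike.congr_fun h (Function.update (1 : Fin k → ℤˣ) a (-1))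
  simp [fS, he.ne'] at this
  norm_num at this

lemma ch_two {k : ℕ} (e e' : Fin k × Fin k) (he : e.1 < e.2) (he' : e'.1 < e'.2) (hee : e ≠ e') :
    ch ({e, e'} : Finset (Fin k × Fin k)) = 0 := by
  classical
  rw [ch_eq, if_neg]
  intro h
  obtain ⟨a, b⟩ := e
  obtain ⟨c, d⟩ := e'
  simp only at he he'
  have hev : ∀ s : Fin k → ℤˣ, (((s a * s b : ℤˣ) : ℤ) : ℝ) * (((s c * s d : ℤˣ) : ℤ) : ℝ) = 1 := by
    intro s
    have := DFunLike.congr_fun h s
    simp only [fS, MonoidHom.coe_mk, OneHom.coe_mk, MonoidHom.one_apply] at this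
    rwa [Finset.prod_pair hee] at this
  by_cases h1 : a = c
  · have h2 : b ≠ d := by
      rintro rfl; exact hee (by rw [h1])
    have h3 : b ≠ c := by rw [← h1]; exact he.ne'
    have := hev (Function.update (1 : Fin k → ℤˣ) b (-1))
    simp [he.ne, h2.symm, h3.symm, he.ne'] at this
    norm_num at this
  · by_cases h2 : a = d
    · have h3 : b ≠ c := by
        rintro rfl
        rw [h2] at he
        exact absurd (he.trans he') (lt_irrefl _)
      have h4 : b ≠ d := by rw [← h2]; exact he.ne'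
      have := hev (Function.update (1 : Fin k → ℤˣ) b (-1))
      simp [he.ne, h4.symm, h3.symm, he.ne'] at this
      norm_num at this
    · have := hev (Function.update (1 : Fin k → ℤˣ) a (-1))
      simp [he.ne, he.ne', Ne.symm h1, Ne.symm h2] at this
      norm_num at this

lemma qq_expand {k : ℕ} (P : Finset (Fin k × Fin k)) (z : ℝ) :
    qq P z = ∑ S ∈ P.powerset, z ^ S.card * ch S := by
  classical
  unfold qq ch
  simp_rw [Finset.prod_one_add, Finset.prod_mul_distrib, Finset.prod_const]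
  rw [Finset.sum_comm, Finset.mul_sum]
  apply Finset.sum_congr rfl
  intro S _
  rw [← Finset.mul_sum]
  have : ∀ s, fS S s = ∏ e ∈ S, (((s e.1 * s e.2 : ℤˣ) : ℤ) : ℝ) := fun s => rfl
  simp_rw [this]
  ring

lemma qq_nonneg {k : ℕ} (P : Finset (Fin k × Fin k)) (z : ℝ) (hz : |z| ≤ 1) : 0 ≤ qq P z := by
  unfold qq
  apply mul_nonneg (by positivity)
  apply Finset.sum_nonneg
  intro s _
  apply Finset.prod_nonneg
  intro e _
  rcases Int.units_eq_one_or (s e.1 * s e.2) with h | h <;> rw [h] <;> simp <;>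
    have := abs_le.1 hz <;> linarith

lemma ch_small {k : ℕ} (F : SimpleGraph (Fin k)) (S : Finset (Fin k × Fin k)) (hS : S ⊆ pairs F)
    (h0 : S.card ≠ 0) (h2 : S.card ≤ 2) : ch S = 0 := by
  classical
  have hlt : ∀ e ∈ S, e.1 < e.2 := by
    intro e he
    have := hS he
    simp only [pairs, mem_filter] at this
    exact this.2.1
  have : S.card = 1 ∨ S.card = 2 := by omega
  rcases this with h | h
  · obtain ⟨e, rfl⟩ := Finset.card_eq_one.1 h
    exact ch_one e (hlt e (by simp))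
  · obtain ⟨e, e', hee, rfl⟩ := Finset.card_eq_two.1 h
    exact ch_two e e' (hlt e (by simp)) (hlt e' (by simp)) hee

/-- general bound, first version -/
lemma qq_le_three {k : ℕ} (F : SimpleGraph (Fin k)) (z : ℝ) (hz0 : 0 ≤ z) (hz : z ≤ 1) :
    qq (pairs F) z ≤ 1 + 2 ^ (pairs F).card * z ^ 3 := by
  classical
  rw [qq_expand]
  have h1 : ∀ S ∈ (pairs F).powerset, z ^ S.card * ch S ≤ (if S = ∅ then 1 else 0) + z ^ 3 := by
    intro S hS
    have hS' := Finset.mem_powerset.1 hS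
    have hz3 : 0 ≤ z ^ 3 := by positivity
    by_cases h0 : S.card = 0
    · have : S = ∅ := Finset.card_eq_zero.1 h0
      subst this
      simp [ch_empty, hz3]
    · have hne : S ≠ ∅ := fun h => h0 (by rw [h]; rfl)
      rw [if_neg hne]
      by_cases h2 : S.card ≤ 2
      · rw [ch_small F S hS' h0 h2]; simpa using hz3
      · have h3 : z ^ S.card ≤ z ^ 3 := pow_le_pow_of_le_one hz0 hz (by omega)
        have h4 := ch_le S
        have h5 := ch_nonneg S
        have h6 : 0 ≤ z ^ S.card := by positivity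
        nlinarith
  refine (Finset.sum_le_sum h1).trans ?_
  rw [Finset.sum_add_distrib]
  simp [Finset.card_powerset]

/-- general bound, second version -/
lemma qq_le_four {k : ℕ} (F : SimpleGraph (Fin k)) (z : ℝ) (hz0 : z ≤ 0) (hz : -1 ≤ z) :
    qq (pairs F) z ≤ 1 + 2 ^ (pairs F).card * z ^ 4 := by
  classical
  rw [qq_expand]
  have h1 : ∀ S ∈ (pairs F).powerset, z ^ S.card * ch S ≤ (if S = ∅ then 1 else 0) + z ^ 4 := by
    intro S hS
    have hS' := Finset.mem_powerset.1 hS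
    have hz4 : 0 ≤ z ^ 4 := by positivity
    by_cases h0 : S.card = 0
    · have : S = ∅ := Finset.card_eq_zero.1 h0
      subst this
      simp [ch_empty, hz4]
    · have hne : S ≠ ∅ := fun h => h0 (by rw [h]; rfl)
      rw [if_neg hne]
      by_cases h2 : S.card ≤ 2
      · rw [ch_small F S hS' h0 h2]; simpa using hz4
      · by_cases h3 : S.card = 3
        · rw [h3]
          have h5 := ch_nonneg S
          have h6 : z ^ 3 ≤ 0 := by
            have : z ^ 3 = z * z ^ 2 := by ring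
            rw [this]
            exact mul_nonpos_of_nonpos_of_nonneg hz0 (by positivity)
          nlinarith
        · have h3 : |z| ^ S.card ≤ |z| ^ 4 :=
            pow_le_pow_of_le_one (abs_nonneg z) (abs_le.2 ⟨hz, by linarith⟩) (by omega)
          have h4 := ch_le S
          have h5 := ch_nonneg S
          have h6 : z ^ S.card ≤ |z| ^ S.card := by
            rw [← abs_pow]; exact le_abs_self _
          have h7 : |z| ^ 4 = z ^ 4 := by
            rw [← abs_pow]; exact abs_of_nonneg hz4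
          rw [h7] at h3
          nlinarith
  refine (Finset.sum_le_sum h1).trans ?_
  rw [Finset.sum_add_distrib]
  simp [Finset.card_powerset]

lemma sum_cons {n : ℕ} {α : Type*} [Fintype α] (f : (Fin (n + 1) → α) → ℝ) :
    ∑ s, f s = ∑ a : α, ∑ s : Fin n → α, f (Matrix.vecCons a s) := by
  rw [← Equiv.sum_comp (Fin.consEquiv (fun _ => α)), Fintype.sum_prod_type]
  rfl

lemma pairs_K3 : pairs (⊤ : SimpleGraph (Fin 3)) = {(0, 1), (0, 2), (1, 2)} := by
  classical
  ext ⟨a, b⟩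
  fin_cases a <;> fin_cases b <;> simp [pairs]

lemma pairs_C4 : pairs (SimpleGraph.cycleGraph 4) = {(0, 1), (1, 2), (2, 3), (0, 3)} := by
  classical
  ext ⟨a, b⟩
  fin_cases a <;> fin_cases b <;> simp [pairs, SimpleGraph.cycleGraph_adj] <;> decide

lemma pairs_K2 : pairs (⊤ : SimpleGraph (Fin 2)) = {(0, 1)} := by
  classical
  ext ⟨a, b⟩
  fin_cases a <;> fin_cases b <;> simp [pairs]

lemma qq_K3 (z : ℝ) : qq (pairs (⊤ : SimpleGraph (Fin 3))) z = 1 + z ^ 3 := by
  rw [pairs_K3]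
  unfold qq
  rw [sum_cons]
  simp_rw [sum_cons]
  simp [UnitsInt.univ]
  ring

lemma qq_C4 (z : ℝ) : qq (pairs (SimpleGraph.cycleGraph 4)) z = 1 + z ^ 4 := by
  rw [pairs_C4]
  unfold qq
  rw [sum_cons]
  simp_rw [sum_cons]
  simp [UnitsInt.univ]
  ring

lemma qq_K2 (z : ℝ) : qq (pairs (⊤ : SimpleGraph (Fin 2))) z = 1 := by
  rw [pairs_K2]
  unfold qq
  rw [sum_cons]
  simp_rw [sum_cons]
  simp [UnitsInt.univ]
  ring

end Run7.h588.BR
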